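import Pool.Agent.J4H50.TF.B

set_option autoImplicit false

/-!
# Project YO of helper50, job NFE (helper45): the algebra

No functional equation `FEv F s` if there is a de Rham functional on the `q F ^ (s - k)` whose value at
`q F ^ s` is `q(0)`.
-/

namespace Pool.Agent.J4H45.YO

open MvPowerSeries
open Pool.Agent.J4H50.NI Pool.Agent.J4H50.IG Pool.Agent.J4H50.TT Pool.Agent.J4H50.TF

/-- products with a series of large order have large order -/
lemma low_mul {σ : Type} {N : ℕ} {a b : MvPowerSeries σ ℂ}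
    (h : ∀ x : σ →₀ ℕ, x.degree < N → coeff x a = 0) :
    ∀ x : σ →₀ ℕ, x.degree < N → coeff x (a * b) = 0 := by
  classical
  intro x hx
  rw [coeff_mul]
  apply Finset.sum_eq_zero
  intro p hp
  rw [h p.1, zero_mul]
  have := Finset.HasAntidiagonal.mem_antidiagonal.1 hp
  rw [← this, map_add] at hx
  omega

/-- no functional equation if there is a functional with the value `q(0)` -/
theorem nfe {σ : Type} [Finite σ] (F : MvPowerSeries σ ℂ) (s : ℂ)
    (hF : ∀ x : σ →₀ ℕ, x.degree ≤ 1 → coeff x F = 0)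
    (α : ℕ → MvPowerSeries σ ℂ →ₗ[ℂ] ℂ)
    (cts : ∀ k, ∃ N : ℕ, ∀ q : MvPowerSeries σ ℂ, (∀ x : σ →₀ ℕ, x.degree < N → coeff x q = 0) →
      α k q = 0)
    (sft : ∀ k q, α (k + 1) (F * q) = α k q)
    (clo : ∀ k i q, α k (pderiv ℂ i q) + (s - k) * α (k + 1) (pderiv ℂ i F * q) = 0)
    (h0 : ∀ q, α 0 q = constantCoeff q) : ¬ FEv F s := by
  classical
  rintro ⟨k, hk⟩
  choose N hN using cts
  -- the order
  obtain ⟨n, hn1, hn⟩ : ∃ n : ℕ, 1 ≤ n ∧ ∀ j ≤ k, N j ≤ n := by
    refine ⟨(Finset.range (k + 1)).sup N + 1, by omega, fun j hj => ?_⟩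
    have : N j ≤ (Finset.range (k + 1)).sup N :=
      Finset.le_sup (f := N) (Finset.mem_range.2 (Nat.lt_succ_of_le hj))
    omega
  have hz : ∀ j ≤ k, ∀ q : MvPowerSeries σ ℂ, (∀ x : σ →₀ ℕ, x.degree < n → coeff x q = 0) →
      α j q = 0 := fun j hj q hq => hN j q fun x hx => hq x (lt_of_lt_of_le hx (hn j hj))
  have hkn := hk n
  set G := tr (n + k + 1) F with hG
  have hG1 : ∀ x : σ →₀ ℕ, x.degree < n → coeff x ((G : MvPowerSeries σ ℂ) - F) = 0 := by
    intro x hx
    rw [map_sub, MvPolynomial.coeff_coe, coeff_tr _ (by omega), sub_self]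
  have hG2 : ∀ i, ∀ x : σ →₀ ℕ, x.degree < n →
      coeff x (((MvPolynomial.pderiv i G : MvPolynomial σ ℂ) : MvPowerSeries σ ℂ) - pderiv ℂ i F) = 0 := by
    intro i x hx
    rw [map_sub, MvPolynomial.coeff_coe, MvPowerSeries.coeff_pderiv, MvPolynomial.coeff_pderiv,
      coeff_tr, sub_self]
    rw [map_add, Finsupp.degree_single]
    omega
  -- the two rules
  have r1 : ∀ j, j + 1 ≤ k → ∀ q : MvPolynomial σ ℂ, α (j + 1) ((G * q : MvPolynomial σ ℂ) :
      MvPowerSeries σ ℂ) = α j (q : MvPowerSeries σ ℂ) := by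
    intro j hj q
    have e : ((G * q : MvPolynomial σ ℂ) : MvPowerSeries σ ℂ) =
        F * (q : MvPowerSeries σ ℂ) + ((G : MvPowerSeries σ ℂ) - F) * (q : MvPowerSeries σ ℂ) := by
      rw [MvPolynomial.coe_mul]
      ring
    rw [e, map_add, sft, hz (j + 1) hj _ (low_mul hG1), add_zero]
  have r2 : ∀ j, j + 1 ≤ k → ∀ i, ∀ q : MvPolynomial σ ℂ, α (j + 1) ((SS s G j i q :
      MvPolynomial σ ℂ) : MvPowerSeries σ ℂ) = 0 := by
    intro j hj i q
    have ep : ((MvPolynomial.pderiv i q : MvPolynomial σ ℂ) : MvPowerSeries σ ℂ) =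
        pderiv ℂ i (q : MvPowerSeries σ ℂ) := by
      ext x
      rw [MvPolynomial.coeff_coe, MvPowerSeries.coeff_pderiv, MvPolynomial.coeff_pderiv,
        MvPolynomial.coeff_coe]
    have e : ((SS s G j i q : MvPolynomial σ ℂ) : MvPowerSeries σ ℂ) =
        ((G * MvPolynomial.pderiv i q : MvPolynomial σ ℂ) : MvPowerSeries σ ℂ) +
        (s - (j : ℂ)) • (pderiv ℂ i F * (q : MvPowerSeries σ ℂ) +
          (((MvPolynomial.pderiv i G : MvPolynomial σ ℂ) : MvPowerSeries σ ℂ) - pderiv ℂ i F) *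
            (q : MvPowerSeries σ ℂ)) := by
      rw [SS, MvPolynomial.coe_add, MvPolynomial.coe_mul (MvPolynomial.C _ * _),
        MvPolynomial.coe_mul (MvPolynomial.C _), MvPolynomial.coe_C, MvPowerSeries.smul_eq_C_mul]
      ring
    rw [e, map_add, r1 j hj, map_smul, map_add, hz (j + 1) hj _ (low_mul (hG2 i)), add_zero,
      smul_eq_mul, ep]
    exact clo j i q
  have key := KI_ind s (F := G) (fun j q => j ≤ k → ∀ a : MvPolynomial σ ℂ,
    α j ((a * q : MvPolynomial σ ℂ) : MvPowerSeries σ ℂ) = 0) ?_ ?_ ?_ ?_ ?_ ?_ ?_ k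
  · obtain ⟨u, hu, v, hv, huv⟩ := Submodule.mem_sup.1 hkn
    have h1 := key u hu le_rfl 1
    have h2 : α k (v : MvPowerSeries σ ℂ) = 0 := by
      apply hz k le_rfl
      intro x hx
      rw [MvPolynomial.coeff_coe]
      exact mem_iff0.1 hv x hx
    have h3 : ∀ j ≤ k, α j ((G ^ j : MvPolynomial σ ℂ) : MvPowerSeries σ ℂ) = 1 := by
      intro j
      induction j with
      | zero =>
        intro _
        rw [pow_zero, h0, MvPolynomial.coe_one, map_one]
      | succ j ih =>
        intro hj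
        rw [pow_succ', r1 j hj, ih (by omega)]
    have h4 := h3 k le_rfl
    rw [← huv, MvPolynomial.coe_add, map_add, h2, add_zero] at h4
    rw [one_mul] at h1
    rw [h1] at h4
    exact zero_ne_one h4
  · intro _ a
    rw [mul_zero, MvPolynomial.coe_zero, map_zero]
  · intro _ a
    rw [h0, MvPolynomial.coe_mul, map_mul]
    have : constantCoeff (G : MvPowerSeries σ ℂ) = 0 := by
      rw [← coeff_zero_eq_constantCoeff_apply, MvPolynomial.coeff_coe, coeff_tr _ (by simp)]
      exact hF 0 (by simp)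
    rw [this, mul_zero]
  · intro i _ a
    rw [h0, MvPolynomial.coe_mul, map_mul]
    have : constantCoeff ((MvPolynomial.pderiv i G : MvPolynomial σ ℂ) : MvPowerSeries σ ℂ) = 0 := by
      rw [← coeff_zero_eq_constantCoeff_apply, MvPolynomial.coeff_coe, MvPolynomial.coeff_pderiv,
        zero_add, coeff_tr _ (by rw [Finsupp.degree_single]; omega),
        hF _ (by rw [Finsupp.degree_single]), zero_mul]
    rw [this, mul_zero]
  · intro j x y hx hy hj a
    rw [mul_add, MvPolynomial.coe_add, map_add, hx hj, hy hj, add_zero]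
  · intro j b q hq hj a
    rw [← mul_assoc]
    exact hq hj _
  · intro j q _ hq hj a
    have e : a * (G * q) = G * (a * q) := by ring
    rw [e, r1 j hj]
    exact hq (by omega) a
  · intro j i q _ hq hj a
    have e : SS s G j i (a * q) = a * SS s G j i q + G * (MvPolynomial.pderiv i a * q) := by
      simp only [SS, Derivation.leibniz, smul_eq_mul]
      ring
    have h := r2 j hj i (a * q)
    rw [e, MvPolynomial.coe_add, map_add, r1 j hj, hq (by omega), add_zero] at h
    exact h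

end Pool.Agent.J4H45.YO
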