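import Pool.Agent.J4H50.YO.Stm
import Pool.Agent.J4H45.YO.Nfe0

set_option autoImplicit false

/-!
# Project YO of helper50, job NFE (helper45)
-/

namespace Pool.Agent.J4H45.YO

open Pool.Agent.J4H50.YO

theorem t_NFE : S_NFE := by
  rintro σ _ F s hF ⟨α, hα, h0⟩
  exact nfe F s hF α hα.cts hα.sft hα.clo h0

end Pool.Agent.J4H45.YO
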